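import Pool.Agent.W699.TF.B

set_option autoImplicit false

namespace Pool.Agent.W699.TF

open Set Filter Topology

/-- a point of the generalised progression. -/
noncomputable def S {N L : ℕ} (a : Fin N → G) (n : Fin N → Fin L) : G := ∑ i, (n i : ℕ) • a i

theorem telescope {N L : ℕ} (a : Fin (N + 1) → G) (g : G → ℂ) {M : ℝ} (hM : ∀ z, ‖g z‖ ≤ M)
    (j : Fin (N + 1)) (x : G) :
    ‖∑ n : Fin (N + 1) → Fin L, (g (x + S a n) - g (x + S a n - a j))‖ ≤ 2 * M * L ^ N := by
  rw [← Equiv.sum_comp (Fin.insertNthEquiv (fun _ => Fin L) j), Fintype.sum_prod_type_right]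
  have key : ∀ n' : Fin N → Fin L,
      ‖∑ k : Fin L, (g (x + S a (Fin.insertNthEquiv (fun _ => Fin L) j (k, n')))
        - g (x + S a (Fin.insertNthEquiv (fun _ => Fin L) j (k, n')) - a j))‖ ≤ 2 * M := by
    intro n'
    set y : G := x + ∑ i : Fin N, (n' i : ℕ) • a (j.succAbove i) with hy
    have h1 : ∀ k : Fin L, x + S a (Fin.insertNthEquiv (fun _ => Fin L) j (k, n'))
        = y + (k : ℕ) • a j := by
      intro k
      unfold S
      rw [Fin.sum_univ_succAbove _ j]
      simp [Fin.insertNthEquiv, hy]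
      abel
    simp only [h1]
    have h2 : ∀ k : ℕ, g (y + k • a j) - g (y + k • a j - a j)
        = (fun k : ℕ => g (y + k • a j - a j)) (k + 1) - (fun k : ℕ => g (y + k • a j - a j)) k := by
      intro k
      simp only
      congr 2
      rw [succ_nsmul]; abel
    rw [Fin.sum_univ_eq_sum_range (fun k : ℕ => g (y + k • a j) - g (y + k • a j - a j)) L,
      Finset.sum_congr rfl (fun k _ => h2 k),
      Finset.sum_range_sub (fun k : ℕ => g (y + k • a j - a j)) L]
    refine (norm_sub_le _ _).trans ?_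
    have := hM (y + L • a j - a j)
    have := hM (y + 0 • a j - a j)
    linarith
  refine (norm_sum_le _ _).trans ?_
  refine (Finset.sum_le_sum fun n' _ => key n').trans ?_
  simp
  ring_nf
  exact le_rfl

/-- sum over a generalised progression -/
noncomputable def A {N L : ℕ} (a : Fin N → G) (F : G → ℂ) (x : G) : ℂ :=
  ∑ n : Fin N → Fin L, F (x + S a n)

/-- the functions `c + ∑ (g_j - τ g_j)` with `N+1` differences of functions bounded by `M`. -/
def T (p : ℕ × ℕ) : Set C(G, ℂ) :=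
  {F | ∃ (c : ℂ) (a : Fin (p.1 + 1) → G) (g : Fin (p.1 + 1) → G → ℂ),
    (∀ j z, ‖g j z‖ ≤ p.2) ∧ ∀ z, F z = c + ∑ j, (g j z - g j (z - a j))}

theorem T_diff {N M : ℕ} {F : C(G, ℂ)} (hF : F ∈ T (N, M)) :
    ∃ a : Fin (N + 1) → G, ∀ (L : ℕ) (x y : G),
      ‖A (L := L) a F x - A (L := L) a F y‖ ≤ 4 * (N + 1) * M * L ^ N := by
  obtain ⟨c, a, g, hg, hF⟩ := hF
  refine ⟨a, fun L x y => ?_⟩
  have h1 : ∀ x, A (L := L) a F x = (∑ _n : Fin (N + 1) → Fin L, c)
      + ∑ j, ∑ n : Fin (N + 1) → Fin L, (g j (x + S a n) - g j (x + S a n - a j)) := by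
    intro x
    unfold A
    rw [Finset.sum_comm, ← Finset.sum_add_distrib]
    exact Finset.sum_congr rfl fun n _ => hF _
  rw [h1 x, h1 y, add_sub_add_left_eq_sub, ← Finset.sum_sub_distrib]
  refine (norm_sum_le _ _).trans ?_
  have h2 : ∀ j, ‖(∑ n : Fin (N + 1) → Fin L, (g j (x + S a n) - g j (x + S a n - a j)))
      - ∑ n : Fin (N + 1) → Fin L, (g j (y + S a n) - g j (y + S a n - a j))‖
      ≤ 4 * M * L ^ N := by
    intro j
    refine (norm_sub_le _ _).trans ?_
    have := telescope (L := L) a (g j) (hg j) j x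
    have := telescope (L := L) a (g j) (hg j) j y
    simp only at *
    linarith
  refine (Finset.sum_le_sum fun j _ => h2 j).trans ?_
  simp
  ring_nf
  exact le_rfl

theorem not_all : ∃ F : C(G, ℂ), ∀ p, F ∉ T p := by
  by_contra hcon
  push Not at hcon
  have hU : (⋃ p, closure (T p)) = univ := by
    refine eq_univ_of_forall fun F => ?_
    obtain ⟨p, hp⟩ := hcon F
    exact mem_iUnion.2 ⟨p, subset_closure hp⟩
  obtain ⟨⟨N, M⟩, hint⟩ := nonempty_interior_of_iUnion_of_closed (fun p => isClosed_closure) hU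
  obtain ⟨h, hh⟩ := hint
  obtain ⟨ε', hε', hball⟩ := Metric.isOpen_iff.1 isOpen_interior h hh
  set ε := ε' / 2 with hε
  have hε0 : 0 < ε := by positivity
  -- uniform continuity of `h`
  have huc : UniformContinuous h := CompactSpace.uniformContinuous_of_continuous h.continuous
  obtain ⟨η, hη, hη2⟩ := Metric.uniformContinuous_iff.1 huc (ε / 2) (by positivity)
  obtain ⟨L, hL⟩ := exists_nat_gt (max (4 * (N + 1) * M / ε) 1)
  have hL1 : 4 * (N + 1) * M / ε < (L:ℝ) := (le_max_left _ _).trans_lt hL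
  have hL0 : (1:ℝ) < L := (le_max_right _ _).trans_lt hL
  obtain ⟨W, hW, hW2⟩ := universal (ι := Fin (N + 1) → Fin L) rfl (η := η / 3) (by positivity)
  set F : C(G, ℂ) := h + (ε : ℂ) • W with hFdef
  have hFb : F ∈ Metric.ball h ε' := by
    rw [Metric.mem_ball, dist_eq_norm, hFdef, add_sub_cancel_left, norm_smul, Complex.norm_real,
      Real.norm_eq_abs, abs_of_pos hε0]
    nlinarith
  have hFc : F ∈ closure (T (N, M)) := interior_subset (hball hFb)
  obtain ⟨F', hF', hd⟩ := Metric.mem_closure_iff.1 hFc (ε / 4) (by positivity)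
  obtain ⟨a, ha⟩ := T_diff hF'
  obtain ⟨⟨x, hx1, hx2⟩, ⟨y, hy1, hy2⟩⟩ := hW2 (fun n => S a n)
  have hxy : dist x y < η := by
    rw [dist_eq_norm]
    have := norm_sub_le x y
    linarith
  have h1 := ha L x y
  have hd' : ∀ z, ‖F z - F' z‖ ≤ ε / 4 := fun z => by
    have := (ContinuousMap.dist_apply_le_dist (f := F) (g := F') z).trans hd.le
    rwa [dist_eq_norm] at this
  have h2 : ∀ x, A (L := L) a F x - A (L := L) a F' x
      = ∑ n : Fin (N + 1) → Fin L, (F (x + S a n) - F' (x + S a n)) := by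
    intro x
    unfold A
    rw [← Finset.sum_sub_distrib]
  have hcard : (Fintype.card (Fin (N + 1) → Fin L) : ℝ) = (L:ℝ) ^ (N + 1) := by
    simp
  have h3 : ∀ x, ‖A (L := L) a F x - A (L := L) a F' x‖ ≤ (L:ℝ) ^ (N + 1) * (ε / 4) := by
    intro x
    rw [h2 x]
    refine (norm_sum_le _ _).trans ?_
    refine (Finset.sum_le_sum fun n _ => hd' _).trans ?_
    rw [Finset.sum_const, Finset.card_univ, nsmul_eq_mul, hcard]
  have h4 : A (L := L) a F x - A (L := L) a F y
      = (∑ n : Fin (N + 1) → Fin L, (h (x + S a n) - h (y + S a n))) + 2 * ε * (L:ℂ) ^ (N + 1) := by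
    unfold A
    rw [← Finset.sum_sub_distrib]
    have : ∀ n : Fin (N + 1) → Fin L, F (x + S a n) - F (y + S a n)
        = (h (x + S a n) - h (y + S a n)) + 2 * ε := by
      intro n
      simp only [hFdef, ContinuousMap.add_apply, ContinuousMap.smul_apply, hx2, hy2, smul_eq_mul]
      ring
    rw [Finset.sum_congr rfl (fun n _ => this n), Finset.sum_add_distrib]
    congr 1
    simp
    ring
  have h5 : ‖∑ n : Fin (N + 1) → Fin L, (h (x + S a n) - h (y + S a n))‖
      ≤ (L:ℝ) ^ (N + 1) * (ε / 2) := by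
    refine (norm_sum_le _ _).trans ?_
    refine (Finset.sum_le_sum (g := fun _ => ε / 2) fun n _ => ?_).trans ?_
    · rw [← dist_eq_norm]
      refine (hη2 ?_).le
      rwa [dist_add_right]
    · rw [Finset.sum_const, Finset.card_univ, nsmul_eq_mul, hcard]
  have h6 : 2 * ε * (L:ℝ) ^ (N + 1) ≤ ‖A (L := L) a F x - A (L := L) a F y‖
      + (L:ℝ) ^ (N + 1) * (ε / 2) := by
    have e1 : (2 * ε * (L:ℂ) ^ (N + 1)) = (A (L := L) a F x - A (L := L) a F y)
        - ∑ n : Fin (N + 1) → Fin L, (h (x + S a n) - h (y + S a n)) := by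
      rw [h4]; ring
    have e2 : ‖(2 * ε * (L:ℂ) ^ (N + 1))‖ = 2 * ε * (L:ℝ) ^ (N + 1) := by
      rw [norm_mul, norm_mul, norm_pow, Complex.norm_real, Complex.norm_natCast,
        Real.norm_eq_abs, abs_of_pos hε0]
      simp
    rw [← e2, e1]
    exact (norm_sub_le _ _).trans (by linarith)
  have h7 : ‖A (L := L) a F x - A (L := L) a F y‖
      ≤ 4 * (N + 1) * M * (L:ℝ) ^ N + 2 * ((L:ℝ) ^ (N + 1) * (ε / 4)) := by
    have e : A (L := L) a F x - A (L := L) a F y = (A (L := L) a F' x - A (L := L) a F' y)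
        + (A (L := L) a F x - A (L := L) a F' x) - (A (L := L) a F y - A (L := L) a F' y) := by ring
    rw [e]
    refine (norm_sub_le _ _).trans ?_
    have := norm_add_le (A (L := L) a F' x - A (L := L) a F' y)
      (A (L := L) a F x - A (L := L) a F' x)
    have := h3 x
    have := h3 y
    linarith
  have h8 : ε * (L:ℝ) ^ (N + 1) ≤ 4 * (N + 1) * M * (L:ℝ) ^ N := by linarith
  rw [pow_succ] at h8
  have hLN : 0 < (L:ℝ) ^ N := by positivity
  have h9 : ε * L ≤ 4 * (N + 1) * M := by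
    have : (ε * L) * (L:ℝ) ^ N ≤ (4 * (N + 1) * M) * (L:ℝ) ^ N := by nlinarith
    exact le_of_mul_le_mul_right this hLN
  rw [div_lt_iff₀ hε0] at hL1
  linarith

end Pool.Agent.W699.TF
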