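import Mathlib

set_option autoImplicit false

namespace Pool.Agent.W699.TF

open Set Filter Topology

/-- The circle `ℝ/ℤ`. -/
abbrev G := AddCircle (1:ℝ)

theorem exists_rep (v : G) : ∃ r : ℝ, (r : G) = v ∧ |r| ≤ 1/2 := by
  induction v using QuotientAddGroup.induction_on with
  | H t =>
    refine ⟨t - round t, ?_, abs_sub_round t⟩
    have h : ((round t : ℝ) : G) = 0 := by
      rw [AddCircle.coe_eq_zero_iff]
      exact ⟨round t, by simp⟩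
    rw [AddCircle.coe_sub, h, sub_zero]

theorem norm_coe_le (r : ℝ) : ‖(r : G)‖ ≤ |r| := by
  rw [AddCircle.norm_eq]
  simpa using round_le r 0

theorem root {R : ℕ} (hR : 1 ≤ R) (y z : G) :
    ∃ x : G, R • x = y ∧ ‖x - z‖ ≤ 1 / (2 * R) := by
  obtain ⟨r, hr, hr2⟩ := exists_rep (y - R • z)
  have hR0 : (0:ℝ) < R := by exact_mod_cast hR
  refine ⟨z + ((r / R : ℝ) : G), ?_, ?_⟩
  · rw [smul_add, ← AddCircle.coe_nsmul, nsmul_eq_mul, mul_div_cancel₀ _ hR0.ne', hr]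
    abel
  · rw [add_sub_cancel_left]
    refine (norm_coe_le _).trans ?_
    rw [abs_div, abs_of_pos hR0, div_le_div_iff₀ hR0 (by positivity)]
    nlinarith [abs_nonneg r]

theorem simul {R : ℕ} (hR : 1 ≤ R) (d : ℕ) : ∀ (z : G) (θ : ℕ → G),
    ∃ x : G, ‖x - z‖ ≤ 1 / (2 * R) ∧ ∀ j < d, ‖R ^ (j + 1) • x - θ j‖ ≤ 1 / (2 * R) := by
  induction d with
  | zero => intro z θ; exact ⟨z, by simp, by simp⟩
  | succ d ih =>
    intro z θ
    obtain ⟨y, hy1, hy2⟩ := ih (θ 0) (fun j => θ (j + 1))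
    obtain ⟨x, hx1, hx2⟩ := root hR y z
    refine ⟨x, hx2, ?_⟩
    intro j hj
    cases j with
    | zero => simpa [hx1] using hy1
    | succ j =>
      have := hy2 j (by omega)
      rw [pow_succ R (j + 1), mul_smul, hx1]
      exact this

theorem avoid {m : ℕ} (q : Fin m → G) : ∃ θ : G, ∀ i, 1 / (2 * ((m:ℝ) + 1)) ≤ ‖θ + q i‖ := by
  by_contra hcon
  push Not at hcon
  choose f hf using hcon
  have hm : (0:ℝ) < (m:ℝ) + 1 := by positivity
  let t : Fin (m + 1) → G := fun k => (((k : ℕ) / ((m:ℝ) + 1) : ℝ) : G)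
  obtain ⟨k, k', hne, hkk⟩ := Fintype.exists_ne_map_eq_of_card_lt (fun k => f (t k)) (by simp)
  have hkk : f (t k) = f (t k') := hkk
  have h1 := hf (t k)
  have h2 := hf (t k')
  rw [← hkk] at h2
  have h3 : ‖t k - t k'‖ < 1 / ((m:ℝ) + 1) := by
    have : t k - t k' = (t k + q (f (t k))) - (t k' + q (f (t k))) := by abel
    rw [this]
    refine (norm_sub_le _ _).trans_lt ?_
    have : 1 / ((m:ℝ) + 1) = 1 / (2 * ((m:ℝ) + 1)) + 1 / (2 * ((m:ℝ) + 1)) := by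
      field_simp; norm_num
    rw [this]
    exact add_lt_add h1 h2
  have h4 : t k - t k' = ((((k:ℕ):ℝ) - ((k':ℕ):ℝ)) / ((m:ℝ) + 1) : ℝ) := by
    simp only [t]
    rw [← AddCircle.coe_sub, sub_div]
  rw [h4, AddCircle.norm_eq] at h3
  simp only [inv_one, one_mul, mul_one] at h3
  set n := round ((((k:ℕ):ℝ) - ((k':ℕ):ℝ)) / ((m:ℝ) + 1)) with hn
  have h5 : |(((k:ℕ):ℝ) - ((k':ℕ):ℝ)) - n * ((m:ℝ) + 1)| < 1 := by
    have : (((k:ℕ):ℝ) - ((k':ℕ):ℝ)) - n * ((m:ℝ) + 1)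
        = ((((k:ℕ):ℝ) - ((k':ℕ):ℝ)) / ((m:ℝ) + 1) - n) * ((m:ℝ) + 1) := by
      field_simp
    rw [this, abs_mul, abs_of_pos hm]
    rw [lt_div_iff₀ hm] at h3
    exact h3
  have h6 : (((k:ℕ):ℤ) - ((k':ℕ):ℤ)) - n * ((m:ℤ) + 1) = 0 := by
    rw [← Int.abs_lt_one_iff]
    exact_mod_cast h5
  have hk := k.2
  have hk' := k'.2
  have hkne : (k:ℕ) ≠ (k':ℕ) := fun h => hne (Fin.ext h)
  have h7 : n = 0 := by
    by_contra hn0
    have : (1:ℤ) ≤ |n| := Int.one_le_abs hn0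
    have h8 : |n| * ((m:ℤ) + 1) = |((k:ℕ):ℤ) - ((k':ℕ):ℤ)| := by
      have : ((k:ℕ):ℤ) - ((k':ℕ):ℤ) = n * ((m:ℤ) + 1) := by linarith
      rw [this, abs_mul, abs_of_pos (by positivity : (0:ℤ) < (m:ℤ) + 1)]
    have h9 : |((k:ℕ):ℤ) - ((k':ℕ):ℤ)| ≤ m := by
      rw [abs_le]; constructor <;> omega
    nlinarith
  rw [h7] at h6
  apply hkne
  omega

end Pool.Agent.W699.TF
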