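import Pool.Agent.W699.TF.A

set_option autoImplicit false

namespace Pool.Agent.W699.TF

open Set Filter Topology

/-- a continuous bump complement: `0` within distance `δ` of `0`, `1` beyond distance `2δ`. -/
noncomputable def psi (δ : ℝ) (z : G) : ℝ := min 1 (max 0 (‖z‖ / δ - 1))

theorem psi_cont (δ : ℝ) : Continuous (psi δ) := by
  unfold psi; fun_prop

theorem psi_nonneg (δ : ℝ) (z : G) : 0 ≤ psi δ z := by unfold psi; simp

theorem psi_le_one (δ : ℝ) (z : G) : psi δ z ≤ 1 := min_le_left _ _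

theorem psi_zero {δ : ℝ} (hδ : 0 < δ) {z : G} (h : ‖z‖ ≤ δ) : psi δ z = 0 := by
  have : ‖z‖ / δ - 1 ≤ 0 := by
    have := (div_le_one hδ).2 h
    linarith
  unfold psi
  rw [max_eq_left this]; simp

theorem psi_one {δ : ℝ} (hδ : 0 < δ) {z : G} (h : 2 * δ ≤ ‖z‖) : psi δ z = 1 := by
  have : 1 ≤ ‖z‖ / δ - 1 := by
    have := (le_div_iff₀ hδ).2 h
    linarith
  unfold psi
  rw [max_eq_right (by linarith), min_eq_left this]

/-- the product over the frequencies `R^(2j+b+1)`. -/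
noncomputable def U (δ : ℝ) (R m b : ℕ) (z : G) : ℝ :=
  ∏ j ∈ Finset.range m, psi δ (R ^ (2 * j + b + 1) • z)

theorem U_cont (δ : ℝ) (R m b : ℕ) : Continuous (U δ R m b) := by
  unfold U
  refine continuous_finsetProd _ fun j _ => ?_
  exact (psi_cont δ).comp (continuous_const_smul _)

theorem U_nonneg (δ : ℝ) (R m b : ℕ) (z : G) : 0 ≤ U δ R m b z :=
  Finset.prod_nonneg fun _ _ => psi_nonneg _ _

theorem U_le_one (δ : ℝ) (R m b : ℕ) (z : G) : U δ R m b z ≤ 1 :=
  Finset.prod_le_one (fun _ _ => psi_nonneg _ _) fun _ _ => psi_le_one _ _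

/-- For a prescribed family of at most `m` points there is a small translation making the product of
parity `b` vanish at all of them while the other product is one at all of them. -/
theorem kill {m R : ℕ} {δ : ℝ} (hδ : δ = 1 / (6 * ((m:ℝ) + 1))) (hR : 1 ≤ R)
    (hRδ : 1 / (2 * (R:ℝ)) ≤ δ) (p : Fin m → G) (b b' : ℕ) (hb : b < 2) (hb' : b' < 2)
    (hbb : b ≠ b') :
    ∃ x : G, ‖x‖ ≤ 1 / (2 * R) ∧ ∀ i, U δ R m b (x + p i) = 0 ∧ U δ R m b' (x + p i) = 1 := by
  have hδ0 : 0 < δ := by rw [hδ]; positivity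
  choose av hav using fun n : ℕ => avoid (fun i : Fin m => R ^ (n + 1) • p i)
  let p' : ℕ → G := fun j => if h : j < m then p ⟨j, h⟩ else 0
  let θ : ℕ → G := fun n => if n % 2 = b then -(R ^ (n + 1) • p' (n / 2)) else av n
  obtain ⟨x, hx1, hx2⟩ := simul hR (2 * m) 0 θ
  rw [sub_zero] at hx1
  refine ⟨x, hx1, fun i => ⟨?_, ?_⟩⟩
  · unfold U
    refine Finset.prod_eq_zero (Finset.mem_range.2 i.2) (psi_zero hδ0 ?_)
    have h := hx2 (2 * (i:ℕ) + b) (by omega)
    have hθ : θ (2 * (i:ℕ) + b) = -(R ^ (2 * (i:ℕ) + b + 1) • p i) := by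
      simp only [θ]
      rw [if_pos (by omega)]
      have : (2 * (i:ℕ) + b) / 2 = i := by omega
      rw [this]
      simp [p']
    rw [hθ, sub_neg_eq_add, ← smul_add] at h
    exact h.trans hRδ
  · unfold U
    refine Finset.prod_eq_one fun j hj => psi_one hδ0 ?_
    have hj := Finset.mem_range.1 hj
    have h := hx2 (2 * j + b') (by omega)
    have hθ : θ (2 * j + b') = av (2 * j + b') := by
      simp only [θ]
      rw [if_neg (by omega)]
    rw [hθ] at h
    have h2 := hav (2 * j + b') i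
    have h3 : av (2 * j + b') + R ^ (2 * j + b' + 1) • p i
        = R ^ (2 * j + b' + 1) • (x + p i) - (R ^ (2 * j + b' + 1) • x - av (2 * j + b')) := by
      rw [smul_add]; abel
    rw [h3] at h2
    have h4 := norm_sub_le (R ^ (2 * j + b' + 1) • (x + p i))
      (R ^ (2 * j + b' + 1) • x - av (2 * j + b'))
    have h5 : 1 / (2 * ((m:ℝ) + 1)) = 3 * δ := by rw [hδ]; field_simp; norm_num
    linarith

/-- The function `w`. -/
noncomputable def w (δ : ℝ) (R m : ℕ) : C(G, ℂ) :=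
  ⟨fun z => ((U δ R m 1 z - U δ R m 0 z : ℝ) : ℂ),
    Complex.continuous_ofReal.comp ((U_cont _ _ _ _).sub (U_cont _ _ _ _))⟩

theorem w_norm_le (δ : ℝ) (R m : ℕ) : ‖w δ R m‖ ≤ 1 := by
  rw [ContinuousMap.norm_le _ zero_le_one]
  intro z
  simp only [w, ContinuousMap.coe_mk, Complex.norm_real, Real.norm_eq_abs]
  rw [abs_le]
  constructor
  · linarith [U_nonneg δ R m 1 z, U_le_one δ R m 0 z]
  · linarith [U_nonneg δ R m 0 z, U_le_one δ R m 1 z]

theorem universal {ι : Type} [Fintype ι] {m : ℕ} (hm : Fintype.card ι = m) {η : ℝ} (hη : 0 < η) :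
    ∃ W : C(G, ℂ), ‖W‖ ≤ 1 ∧ ∀ p : ι → G,
      (∃ x : G, ‖x‖ ≤ η ∧ ∀ i, W (x + p i) = 1) ∧ (∃ x : G, ‖x‖ ≤ η ∧ ∀ i, W (x + p i) = -1) := by
  set δ : ℝ := 1 / (6 * ((m:ℝ) + 1)) with hδ
  have hδ0 : 0 < δ := by rw [hδ]; positivity
  obtain ⟨R, hR⟩ := exists_nat_gt (max (1 / (2 * δ)) (max (1 / (2 * η)) 1))
  have hR1 : 1 / (2 * δ) < R := (le_max_left _ _).trans_lt hR
  have hR2 : 1 / (2 * η) < R := ((le_max_left _ _).trans (le_max_right _ _)).trans_lt hR
  have hR3 : (1:ℝ) < R := ((le_max_right _ _).trans (le_max_right _ _)).trans_lt hR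
  have hR0 : (0:ℝ) < R := by linarith
  have hR4 : 1 ≤ R := by exact_mod_cast hR3.le
  have h1 : 1 / (2 * (R:ℝ)) ≤ δ := by
    rw [div_lt_iff₀ (by positivity)] at hR1
    rw [div_le_iff₀ (by positivity)]
    nlinarith
  have h2 : 1 / (2 * (R:ℝ)) ≤ η := by
    rw [div_lt_iff₀ (by positivity)] at hR2
    rw [div_le_iff₀ (by positivity)]
    nlinarith
  subst hm
  refine ⟨w δ R (Fintype.card ι), w_norm_le _ _ _, fun p => ?_⟩
  let e := Fintype.equivFin ι
  constructor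
  · obtain ⟨x, hx1, hx2⟩ := kill hδ hR4 h1 (fun i => p (e.symm i)) 0 1 (by norm_num) (by norm_num)
      (by norm_num)
    refine ⟨x, hx1.trans h2, fun i => ?_⟩
    obtain ⟨h3, h4⟩ := hx2 (e i)
    simp only [Equiv.symm_apply_apply] at h3 h4
    simp [w, h3, h4]
  · obtain ⟨x, hx1, hx2⟩ := kill hδ hR4 h1 (fun i => p (e.symm i)) 1 0 (by norm_num) (by norm_num)
      (by norm_num)
    refine ⟨x, hx1.trans h2, fun i => ?_⟩
    obtain ⟨h3, h4⟩ := hx2 (e i)
    simp only [Equiv.symm_apply_apply] at h3 h4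
    simp [w, h3, h4]

end Pool.Agent.W699.TF
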